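import Pool.Agent.Helper43.Fr.Goals

/-! Packet KAP. -/

namespace Pool.Agent.Helper43.Fr.PkKAP

open scoped PowerSeries Polynomial
open Pool.Agent.Helper43.Fr

noncomputable section

section Alg

variable {A : Type*} [CommRing A]

/-- The local computation at one of the two points. -/
theorem claim (P F g Ex tF r U Y D Gx : A) (h : ℕ)
    (h1 : P ∣ F * g - (tF - tF ^ (2 * h + 1) * D ^ h))
    (h2 : F * Ex = tF * r) (h3 : r ^ 2 = Y * D)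
    (h4 : F ^ (2 * h) * U = 1 + P * Gx) (hD : IsUnit D) (hF : IsUnit F) :
    P ∣ (U * Y ^ h) * (g * r) - (U * Y ^ h) * Ex + Ex ^ (2 * h + 1) := by
  obtain ⟨w, hw⟩ := h1
  have hu : IsUnit (D ^ h * F) := (hD.pow h).mul hF
  obtain ⟨v, hv⟩ := hu.exists_left_inv
  have h5 : r ^ (2 * h) = Y ^ h * D ^ h := by rw [pow_mul, h3, mul_pow]
  have h6 : F ^ (2 * h + 1) * Ex ^ (2 * h + 1) = tF ^ (2 * h + 1) * (r ^ (2 * h) * r) := by
    rw [← mul_pow, h2, mul_pow, pow_succ r]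
  have key : (D ^ h * F) * ((U * Y ^ h) * (g * r) - (U * Y ^ h) * Ex + Ex ^ (2 * h + 1)) =
      P * (U * r ^ (2 * h) * r * w - Gx * F * Ex ^ (2 * h + 1) * D ^ h) := by
    have h7 : F ^ (2 * h + 1) * U = F * (1 + P * Gx) := by
      rw [pow_succ]; linear_combination F * h4
    linear_combination (- U * F * (g * r - Ex)) * h5 + (U * r ^ (2 * h) * r) * hw
      - (U * r ^ (2 * h)) * h2 + (U * D ^ h) * h6 - (Ex ^ (2 * h + 1) * D ^ h) * h7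
  refine ⟨v * (U * r ^ (2 * h) * r * w - Gx * F * Ex ^ (2 * h + 1) * D ^ h), ?_⟩
  linear_combination v * key - ((U * Y ^ h) * (g * r) - (U * Y ^ h) * Ex
    + Ex ^ (2 * h + 1)) * hv

end Alg

variable {p : ℕ} [Fact p.Prime]

theorem cc_sb {a : ℤ_[p]⟦X⟧} (ha : PowerSeries.constantCoeff a = 0) (f : ℤ_[p]⟦X⟧) :
    PowerSeries.constantCoeff (sb a f) = PowerSeries.constantCoeff f := by
  have hs : PowerSeries.HasSubst a := PowerSeries.HasSubst.of_constantCoeff_zero' ha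
  have h1 := PowerSeries.constantCoeff_subst_eq_zero (a := a) ha
    (f - PowerSeries.C (PowerSeries.constantCoeff f)) (by simp)
  rw [PowerSeries.subst_sub hs, PowerSeries.subst_C, map_sub, sub_eq_zero] at h1
  rw [sb]
  refine Eq.trans ?_ (h1.trans ?_)
  · rfl
  · simp

theorem th_sb {a r : ℤ_[p]⟦X⟧} (ha : PowerSeries.constantCoeff a = 0) (hr : th a = r * a)
    (f : ℤ_[p]⟦X⟧) : th (sb a f) = sb a (th f) * r := by
  have hs : PowerSeries.HasSubst a := PowerSeries.HasSubst.of_constantCoeff_zero' ha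
  have h1 : ∀ g : ℤ_[p]⟦X⟧, th g = PowerSeries.X * PowerSeries.derivative ℤ_[p] g := fun g => rfl
  rw [h1] at hr
  rw [h1, h1, sb, sb, PowerSeries.derivative_subst hs, PowerSeries.subst_mul hs,
    PowerSeries.subst_X hs]
  linear_combination (PowerSeries.subst a (PowerSeries.derivative ℤ_[p] f)) * hr

theorem loc (hp3 : 3 < p) {Γ a r Ex Y : ℤ_[p]⟦X⟧} (ha : PowerSeries.constantCoeff a = 0)
    (hr : th a = r * a) (hr2 : r ^ 2 = Y * DD a)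
    (hE : sb a (FF ℤ_[p]) * Ex = sb a (th (FF ℤ_[p])) * r)
    (hΓ : (FF ℤ_[p]) ^ (p - 1) * ((F1 ℤ_[p] p : ℤ_[p][X]) : ℤ_[p]⟦X⟧) = 1 + (p : ℤ_[p]⟦X⟧) * Γ)
    (hΓ' : (p : ℤ_[p]⟦X⟧) ∣ FF ℤ_[p] * th Γ
      - (th (FF ℤ_[p]) - (th (FF ℤ_[p])) ^ p * (DD (PowerSeries.X : ℤ_[p]⟦X⟧)) ^ ((p - 1) / 2))) :
    (sb a (FF ℤ_[p])) ^ (p - 1) * Polynomial.aeval a (F1 ℤ_[p] p) =
      1 + (p : ℤ_[p]⟦X⟧) * sb a Γ ∧
    (p : ℤ_[p]⟦X⟧) ∣ (Polynomial.aeval a (F1 ℤ_[p] p) * Y ^ ((p - 1) / 2)) * th (sb a Γ)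
      - (Polynomial.aeval a (F1 ℤ_[p] p) * Y ^ ((p - 1) / 2)) * Ex + Ex ^ p := by
  have hs : PowerSeries.HasSubst a := PowerSeries.HasSubst.of_constantCoeff_zero' ha
  have hφ : ∀ f, PowerSeries.substAlgHom (R := ℤ_[p]) hs f = sb a f := fun f => by
    rw [PowerSeries.coe_substAlgHom]; rfl
  have h1 := congrArg (PowerSeries.substAlgHom (R := ℤ_[p]) hs) hΓ
  rw [map_mul, map_pow, map_add, map_one, map_mul, map_natCast,
    PowerSeries.substAlgHom_coe, hφ, hφ] at h1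
  refine ⟨h1, ?_⟩
  have hp := Nat.Prime.eq_two_or_odd' (Fact.out : p.Prime)
  obtain ⟨h, hh⟩ : Odd p := by
    rcases hp with hp | hp
    · omega
    · exact hp
  have hh2 : (p - 1) / 2 = h := by omega
  have hh3 : p - 1 = 2 * h := by omega
  have h2 := map_dvd (PowerSeries.substAlgHom (R := ℤ_[p]) hs) hΓ'
  rw [map_natCast, map_sub, map_mul, map_sub, map_mul, map_pow, map_pow, hφ, hφ, hφ] at h2
  have h3 : (PowerSeries.substAlgHom (R := ℤ_[p]) hs) (DD PowerSeries.X) = DD a := by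
    simp only [DD, map_sub, map_mul, map_pow, map_one, map_ofNat, PowerSeries.substAlgHom_X]
  rw [h3, hh2] at h2
  rw [th_sb ha hr, hh2]
  have h4 : Ex ^ p = Ex ^ (2 * h + 1) := by rw [← hh]
  have h5 : (sb a (th (FF ℤ_[p]))) ^ p = (sb a (th (FF ℤ_[p]))) ^ (2 * h + 1) := by rw [← hh]
  rw [h4]
  rw [h5] at h2
  rw [hh3] at h1
  refine claim _ _ _ Ex _ r _ Y (DD a) _ h h2 hE hr2 h1 ?_ ?_
  · rw [PowerSeries.isUnit_iff_constantCoeff]
    simp [DD, ha]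
  · rw [PowerSeries.isUnit_iff_constantCoeff, cc_sb ha]
    simp [FF, aa, franel]

theorem th_p (f : ℤ_[p]⟦X⟧) : th ((p : ℤ_[p]⟦X⟧) * f) = (p : ℤ_[p]⟦X⟧) * th f := by
  rw [← nsmul_eq_mul, map_nsmul, nsmul_eq_mul]

theorem kap : G_EXA → G_GAM → G_KAP := by
  intro hexa hgam p _ hp3 C
  obtain ⟨Ex, Ey, hEx, hEy, hlam, hF⟩ := hexa p hp3 C
  obtain ⟨Γ, hΓ, hΓ'⟩ := hgam p hp3
  obtain ⟨hx1, hx2⟩ := loc hp3 (Y := C.ψ * C.M) C.hxc C.hrx C.hrx2 hEx hΓ hΓ'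
  obtain ⟨hy1, hy2⟩ := loc hp3 (Y := C.ψ * C.M') C.hyc C.hry C.hry2 hEy hΓ hΓ'
  set U := Polynomial.aeval C.x (F1 ℤ_[p] p) with hU
  set V := Polynomial.aeval C.y (F1 ℤ_[p] p) with hV
  set Gx := sb C.x Γ with hGx
  set Gy := sb C.y Γ with hGy
  set Fx := sb C.x (FF ℤ_[p])
  set Fy := sb C.y (FF ℤ_[p])
  have hp := Nat.Prime.eq_two_or_odd' (Fact.out : p.Prime)
  obtain ⟨h, hh⟩ : Odd p := by
    rcases hp with hp | hp
    · omega
    · exact hp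
  have hh2 : (p - 1) / 2 = h := by omega
  have hh3 : p - 1 = 2 * h := by omega
  have e1 : U * C.M ^ (p - 1) * (1 + (p : ℤ_[p]⟦X⟧) * Gy) =
      V * (1 + (p : ℤ_[p]⟦X⟧) * Gx) := by
    rw [← hx1, ← hy1, hF, mul_pow]
    ring
  refine ⟨⟨Gx * V - U * C.M ^ (p - 1) * Gy, by linear_combination e1⟩, ?_⟩
  rw [hh2] at hx2 hy2
  rw [hh3] at e1
  have hXx : C.Xix = U * (C.ψ * C.M) ^ h := by rw [Cur.Xix, hh2]
  have hXy : C.Xiy = V * (C.ψ * C.M') ^ h := by rw [Cur.Xiy, hh2]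
  rw [← hXx] at hx2
  rw [← hXy] at hy2
  -- Fermat
  obtain ⟨ν, hν⟩ : ∃ ν : ℤ_[p], (C.N : ℤ_[p]) ^ (2 * h) = 1 + (p : ℤ_[p]) * ν := by
    have h1 : ((C.N : ℤ)) ^ (p - 1) ≡ 1 [ZMOD p] := by
      refine Int.ModEq.pow_card_sub_one_eq_one (Fact.out : p.Prime) ?_
      rw [Nat.isCoprime_iff_coprime, Nat.coprime_comm]
      exact (Nat.Prime.coprime_iff_not_dvd (Fact.out : p.Prime)).mpr C.hN
    obtain ⟨m, hm⟩ := h1.symm.dvd
    refine ⟨(m : ℤ_[p]), ?_⟩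
    rw [hh3] at hm
    have h2 := congrArg (fun z : ℤ => (z : ℤ_[p])) hm
    push_cast at h2
    linear_combination h2
  have hν' : (C.N : ℤ_[p]⟦X⟧) ^ (2 * h) = 1 + (p : ℤ_[p]⟦X⟧) * PowerSeries.C ν := by
    have h1 := congrArg (PowerSeries.C (R := ℤ_[p])) hν
    rw [map_pow, map_add, map_one, map_mul, map_natCast, map_natCast] at h1
    exact h1
  have e2 : C.Xix * (1 + (p : ℤ_[p]⟦X⟧) * PowerSeries.C ν) * (1 + (p : ℤ_[p]⟦X⟧) * Gy) =
      C.Xiy * (1 + (p : ℤ_[p]⟦X⟧) * Gx) := by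
    rw [← hν', hXx, hXy, pow_mul (C.N : ℤ_[p]⟦X⟧), ← C.hMM, mul_pow, mul_pow, mul_pow]
    have e3 : C.M ^ (2 * h) = C.M ^ h * C.M ^ h := by rw [two_mul, pow_add]
    rw [e3] at e1
    linear_combination (C.ψ ^ h * C.M' ^ h) * e1
  obtain ⟨I, hI⟩ : ∃ I, I * C.Xix = 1 := by
    have h1 : IsUnit C.Xix := by
      rw [PowerSeries.isUnit_iff_constantCoeff, hXx, map_mul, map_pow, map_mul, C.hM0, mul_one]
      refine IsUnit.mul ?_ (C.hψ0.pow h)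
      have h2 : U = sb C.x ((F1 ℤ_[p] p : ℤ_[p][X]) : ℤ_[p]⟦X⟧) := by
        rw [sb, PowerSeries.subst_coe (PowerSeries.HasSubst.of_constantCoeff_zero' C.hxc)]
      rw [h2, cc_sb C.hxc]
      have h3 : PowerSeries.constantCoeff ((F1 ℤ_[p] p : ℤ_[p][X]) : ℤ_[p]⟦X⟧) = 1 := by
        rw [← PowerSeries.coeff_zero_eq_constantCoeff_apply, Polynomial.coeff_coe, F1,
          Polynomial.finsetSum_coeff]
        rw [Finset.sum_eq_single 0]
        · simp [aa, franel]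
        · intro b _ hb
          rw [Polynomial.coeff_monomial, if_neg hb]
        · intro hb
          exact absurd (Finset.mem_range.mpr (by omega)) hb
      rw [h3]
      exact isUnit_one
    exact h1.exists_left_inv
  set n : ℤ_[p]⟦X⟧ := PowerSeries.C ν with hn
  set κ : ℤ_[p]⟦X⟧ := I * (Gx * C.Xiy - C.Xix * (n + Gy + (p : ℤ_[p]⟦X⟧) * n * Gy)) with hκ
  have e4 : C.Xix - C.Xiy = (p : ℤ_[p]⟦X⟧) * κ * C.Xix := by
    rw [hκ]
    linear_combination e2 - (p : ℤ_[p]⟦X⟧) * (Gx * C.Xiy - C.Xix * (n + Gy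
      + (p : ℤ_[p]⟦X⟧) * n * Gy)) * hI
  refine ⟨κ, e4, ?_⟩
  have e5 : κ = Gx - Gy - n + (p : ℤ_[p]⟦X⟧) * (-(Gx * κ + n * Gy)) := by
    have h1 : κ = (I * C.Xix) * (Gx * (1 - (p : ℤ_[p]⟦X⟧) * κ) - (n + Gy
        + (p : ℤ_[p]⟦X⟧) * n * Gy)) := by
      conv_lhs => rw [hκ]
      linear_combination (- I * Gx) * e4
    rw [hI] at h1
    linear_combination h1
  have e6 : th κ = th Gx - th Gy + (p : ℤ_[p]⟦X⟧) * th (-(Gx * κ + n * Gy)) := by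
    conv_lhs => rw [e5]
    have h1 : th n = 0 := by
      rw [hn]
      show PowerSeries.X * PowerSeries.derivative ℤ_[p] (PowerSeries.C ν) = 0
      rw [PowerSeries.derivative_C, mul_zero]
    rw [map_add, map_sub, map_sub, h1, th_p]
    ring
  obtain ⟨a, ha⟩ := hx2
  obtain ⟨b, hb⟩ := hy2
  obtain ⟨r, hr⟩ := exists_add_pow_prime_eq (Fact.out : p.Prime) (Ex - Ey) Ey
  rw [sub_add_cancel] at hr
  rw [← hlam]
  refine ⟨a - b + C.Xix * th (-(Gx * κ + n * Gy)) - (Ex - Ey) * Ey * r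
    + κ * C.Xix * (Ey - th Gy), ?_⟩
  rw [e6]
  linear_combination ha - hb - hr + (Ey - th Gy) * e4

end

end Pool.Agent.Helper43.Fr.PkKAP
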